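import Pool.Agent.U892.PD.Stm

/-!
Project PD, package UNIQ (helper55): a curved arc lies on at most one conic.
-/

set_option autoImplicit false

open Filter Topology Set
open scoped ContDiff

namespace Pool.Agent.U55.PD

open Pool.Agent.U892.PD

noncomputable section

def det2 (a b : ℝ × ℝ) : ℝ := a.1 * b.2 - a.2 * b.1

def c1 (R : Fin 6 → ℝ) (P d : ℝ × ℝ) : ℝ :=
  R 1 * d.1 + R 2 * d.2 + 2 * R 3 * P.1 * d.1 + R 4 * (P.1 * d.2 + P.2 * d.1) +
    2 * R 5 * P.2 * d.2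

def c2 (R : Fin 6 → ℝ) (d : ℝ × ℝ) : ℝ := R 3 * d.1 ^ 2 + R 4 * d.1 * d.2 + R 5 * d.2 ^ 2

def cB (R : Fin 6 → ℝ) (d e : ℝ × ℝ) : ℝ :=
  2 * R 3 * d.1 * e.1 + R 4 * (d.1 * e.2 + d.2 * e.1) + 2 * R 5 * d.2 * e.2

theorem quad_expand (R : Fin 6 → ℝ) (P d e : ℝ × ℝ) (s t : ℝ) :
    quad R (P + s • d + t • e) = quad R P + s * c1 R P d + s ^ 2 * c2 R d + t * c1 R P e +
      s * t * cB R d e + t ^ 2 * c2 R e := by
  unfold quad c1 c2 cB
  simp only [Prod.fst_add, Prod.snd_add, Prod.smul_fst, Prod.smul_snd, smul_eq_mul]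
  ring

theorem cramer (P d e X : ℝ × ℝ) (h : det2 d e ≠ 0) :
    X = P + (det2 (X - P) e / det2 d e) • d + (det2 d (X - P) / det2 d e) • e := by
  have h1 : X.1 - P.1 = (det2 (X - P) e / det2 d e) * d.1 + (det2 d (X - P) / det2 d e) * e.1 := by
    rw [div_mul_eq_mul_div, div_mul_eq_mul_div, ← add_div, eq_div_iff h]
    unfold det2
    simp only [Prod.fst_sub, Prod.snd_sub]
    ring
  have h2 : X.2 - P.2 = (det2 (X - P) e / det2 d e) * d.2 + (det2 d (X - P) / det2 d e) * e.2 := by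
    rw [div_mul_eq_mul_div, div_mul_eq_mul_div, ← add_div, eq_div_iff h]
    unfold det2
    simp only [Prod.fst_sub, Prod.snd_sub]
    ring
  ext
  · simp only [Prod.fst_add, Prod.smul_fst, smul_eq_mul]
    linarith
  · simp only [Prod.snd_add, Prod.smul_snd, smul_eq_mul]
    linarith

theorem quad_zero (R : Fin 6 → ℝ) (h : ∀ p, quad R p = 0) : R = 0 := by
  have h0 := h (0, 0)
  have h1 := h (1, 0)
  have h2 := h (-1, 0)
  have h3 := h (0, 1)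
  have h4 := h (0, -1)
  have h5 := h (1, 1)
  unfold quad at h0 h1 h2 h3 h4 h5
  simp only at h0 h1 h2 h3 h4 h5
  norm_num at h0 h1 h2 h3 h4 h5
  funext i
  fin_cases i
  · simpa using h0
  · change R 1 = 0
    linarith
  · change R 2 = 0
    linarith
  · change R 3 = 0
    linarith
  · change R 4 = 0
    linarith
  · change R 5 = 0
    linarith

theorem six (R : Fin 6 → ℝ) (P0 P1 P2 P3 P4 : ℝ × ℝ) (h2 : det2 (P1 - P0) (P2 - P0) ≠ 0)
    (h3 : det2 (P1 - P0) (P3 - P0) ≠ 0) (h4 : det2 (P1 - P0) (P4 - P0) ≠ 0)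
    (h5 : det2 (P3 - P2) (P4 - P2) ≠ 0) (e0 : quad R P0 = 0) (e1 : quad R P1 = 0)
    (eN : quad R (P0 + (2 : ℝ) • (P1 - P0)) = 0) (e2 : quad R P2 = 0) (e3 : quad R P3 = 0)
    (e4 : quad R P4 = 0) : R = 0 := by
  obtain ⟨d, hd⟩ : ∃ d, d = P1 - P0 := ⟨_, rfl⟩
  obtain ⟨e, he⟩ : ∃ e, e = P2 - P0 := ⟨_, rfl⟩
  rw [← hd] at h2 h3 h4 eN
  rw [← he] at h2
  have k1 : quad R (P0 + (1 : ℝ) • d + (0 : ℝ) • e) = 0 := by
    have : P0 + (1 : ℝ) • d + (0 : ℝ) • e = P1 := by rw [hd]; simp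
    rw [this, e1]
  have k2 : quad R (P0 + (2 : ℝ) • d + (0 : ℝ) • e) = 0 := by
    have : P0 + (2 : ℝ) • d + (0 : ℝ) • e = P0 + (2 : ℝ) • d := by simp
    rw [this, eN]
  rw [quad_expand, e0] at k1 k2
  have c1z : c1 R P0 d = 0 := by linarith
  have c2z : c2 R d = 0 := by linarith
  have key : ∀ X, quad R X = (det2 d (X - P0) / det2 d e) * (c1 R P0 e +
      (det2 (X - P0) e / det2 d e) * cB R d e + (det2 d (X - P0) / det2 d e) * c2 R e) := by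
    intro X
    conv_lhs => rw [cramer P0 d e X h2]
    rw [quad_expand, e0, c1z, c2z]
    ring
  obtain ⟨s3, hs3⟩ : ∃ s, s = det2 (P3 - P0) e / det2 d e := ⟨_, rfl⟩
  obtain ⟨t3, ht3⟩ : ∃ s, s = det2 d (P3 - P0) / det2 d e := ⟨_, rfl⟩
  obtain ⟨s4, hs4⟩ : ∃ s, s = det2 (P4 - P0) e / det2 d e := ⟨_, rfl⟩
  obtain ⟨t4, ht4⟩ : ∃ s, s = det2 d (P4 - P0) / det2 d e := ⟨_, rfl⟩
  have f2 := key P2
  have f3 := key P3
  have f4 := key P4
  rw [e2, ← he, div_self h2] at f2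
  have hee : det2 e e = 0 := by unfold det2; ring
  rw [hee, zero_div] at f2
  rw [e3, ← hs3, ← ht3] at f3
  rw [e4, ← hs4, ← ht4] at f4
  have ht3' : t3 ≠ 0 := by rw [ht3]; exact div_ne_zero h3 h2
  have ht4' : t4 ≠ 0 := by rw [ht4]; exact div_ne_zero h4 h2
  have g3 := (mul_eq_zero.1 f3.symm).resolve_left ht3'
  have g4 := (mul_eq_zero.1 f4.symm).resolve_left ht4'
  have hD : det2 (P3 - P2) (P4 - P2) = (s3 * (t4 - 1) - (t3 - 1) * s4) * det2 d e := by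
    have a3 := cramer P0 d e P3 h2
    have a4 := cramer P0 d e P4 h2
    rw [← hs3, ← ht3] at a3
    rw [← hs4, ← ht4] at a4
    have a2 : P2 = P0 + e := by rw [he]; simp
    rw [a3, a4, a2]
    unfold det2
    simp only [Prod.fst_add, Prod.snd_add, Prod.smul_fst, Prod.smul_snd, smul_eq_mul,
      Prod.fst_sub, Prod.snd_sub]
    ring
  have hD' : s3 * (t4 - 1) - (t3 - 1) * s4 ≠ 0 := by
    intro h0
    rw [h0, zero_mul] at hD
    exact h5 hD
  have hC : c2 R e = 0 := by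
    have : (s3 * (t4 - 1) - (t3 - 1) * s4) * c2 R e = 0 := by
      linear_combination s3 * g4 - s4 * g3 + (s4 - s3) * f2.symm
    exact (mul_eq_zero.1 this).resolve_left hD'
  have hB : cB R d e = 0 := by
    have : (s3 * (t4 - 1) - (t3 - 1) * s4) * cB R d e = 0 := by
      linear_combination (t4 - 1) * g3 - (t3 - 1) * g4 + (t3 - t4) * f2.symm
    exact (mul_eq_zero.1 this).resolve_left hD'
  have hA : c1 R P0 e = 0 := by
    rw [hC, hB] at f2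
    linarith
  refine quad_zero R fun X => ?_
  rw [key X, hA, hB, hC]
  ring

theorem quad_comb (Q Q' : Fin 6 → ℝ) (a b : ℝ) (p : ℝ × ℝ) :
    quad (a • Q - b • Q') p = a * quad Q p - b * quad Q' p := by
  unfold quad
  simp only [Pi.sub_apply, Pi.smul_apply, smul_eq_mul]
  ring

theorem five (Q Q' : Fin 6 → ℝ) (hQ : Q ≠ 0) (P0 P1 P2 P3 P4 : ℝ × ℝ)
    (h2 : det2 (P1 - P0) (P2 - P0) ≠ 0)
    (h3 : det2 (P1 - P0) (P3 - P0) ≠ 0) (h4 : det2 (P1 - P0) (P4 - P0) ≠ 0)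
    (h5 : det2 (P3 - P2) (P4 - P2) ≠ 0)
    (e0 : quad Q P0 = 0 ∧ quad Q' P0 = 0) (e1 : quad Q P1 = 0 ∧ quad Q' P1 = 0)
    (e2 : quad Q P2 = 0 ∧ quad Q' P2 = 0) (e3 : quad Q P3 = 0 ∧ quad Q' P3 = 0)
    (e4 : quad Q P4 = 0 ∧ quad Q' P4 = 0) : ∃ c : ℝ, Q' = c • Q := by
  obtain ⟨a, ha⟩ : ∃ a, a = quad Q (P0 + (2 : ℝ) • (P1 - P0)) := ⟨_, rfl⟩
  obtain ⟨b, hb⟩ : ∃ b, b = quad Q' (P0 + (2 : ℝ) • (P1 - P0)) := ⟨_, rfl⟩
  have ha0 : a ≠ 0 := by
    intro h0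
    refine hQ (six Q P0 P1 P2 P3 P4 h2 h3 h4 h5 e0.1 e1.1 ?_ e2.1 e3.1 e4.1)
    rw [← ha, h0]
  have h := six (b • Q - a • Q') P0 P1 P2 P3 P4 h2 h3 h4 h5
    (by rw [quad_comb, e0.1, e0.2]; ring) (by rw [quad_comb, e1.1, e1.2]; ring)
    (by rw [quad_comb, ← ha, ← hb]; ring) (by rw [quad_comb, e2.1, e2.2]; ring)
    (by rw [quad_comb, e3.1, e3.2]; ring) (by rw [quad_comb, e4.1, e4.2]; ring)
  refine ⟨b / a, ?_⟩
  have h' : a • Q' = b • Q := (sub_eq_zero.1 h).symm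
  rw [div_eq_inv_mul, mul_smul, ← h', smul_smul, inv_mul_cancel₀ ha0, one_smul]

/-- an arc of a leaf is not contained in a line -/
theorem noline {Ω : Set (ℝ × ℝ)} {F : ℝ × ℝ → ℝ} (hF : Foliation Ω F) (γ : ℝ → ℝ × ℝ)
    (lam : ℝ × ℝ →ₗ[ℝ] ℝ) (c k x0 : ℝ) (P v : ℝ × ℝ) (hv : v ≠ 0) (hΩ : γ x0 ∈ Ω)
    (h : ∀ᶠ x in 𝓝 x0, F (γ x) = c ∧ lam (γ x) = k + x ∧ det2 v (γ x - P) = 0) : False := by
  -- points of the line
  have hline : ∀ X Y : ℝ × ℝ, det2 v (X - P) = 0 → det2 v (Y - P) = 0 →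
      (lam v) • (Y - X) = (lam (Y - X)) • v := by
    intro X Y hX hY
    have h1 : det2 v (Y - X) = 0 := by
      have : det2 v (Y - X) = det2 v (Y - P) - det2 v (X - P) := by
        unfold det2
        simp only [Prod.fst_sub, Prod.snd_sub]
        ring
      rw [this, hX, hY, sub_zero]
    have hlam : ∀ p : ℝ × ℝ, lam p = p.1 * lam (1, 0) + p.2 * lam (0, 1) := by
      intro p
      have : p = p.1 • ((1, 0) : ℝ × ℝ) + p.2 • ((0, 1) : ℝ × ℝ) := by ext <;> simp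
      conv_lhs => rw [this]
      rw [map_add, map_smul, map_smul, smul_eq_mul, smul_eq_mul]
    obtain ⟨Z, hZ⟩ : ∃ Z, Z = Y - X := ⟨_, rfl⟩
    rw [← hZ] at h1 ⊢
    unfold det2 at h1
    rw [hlam v, hlam Z]
    ext
    · simp only [Prod.smul_fst, smul_eq_mul]
      linear_combination (-lam (0, 1)) * h1
    · simp only [Prod.smul_snd, smul_eq_mul]
      linear_combination (lam (1, 0)) * h1
  have h0 := h.self_of_nhds
  obtain ⟨δ, hδ, hδ'⟩ := Metric.eventually_nhds_iff.1 h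
  have hlv : lam v ≠ 0 := by
    intro hz
    have h1 := hδ' (y := x0 + δ / 2) (by
      rw [Real.dist_eq]
      have : x0 + δ / 2 - x0 = δ / 2 := by ring
      rw [this, abs_of_pos (by linarith)]
      linarith)
    have h2 := hline (γ x0) (γ (x0 + δ / 2)) h0.2.2 h1.2.2
    rw [hz, zero_smul, map_sub, h1.2.1, h0.2.1] at h2
    have h3 : k + (x0 + δ / 2) - (k + x0) = δ / 2 := by ring
    rw [h3] at h2
    rcases smul_eq_zero.1 h2.symm with h4 | h4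
    · linarith
    · exact hv h4
  obtain ⟨u, hu⟩ : ∃ u, u = (lam v)⁻¹ • v := ⟨_, rfl⟩
  have hu0 : u ≠ 0 := by
    rw [hu]
    exact smul_ne_zero (inv_ne_zero hlv) hv
  have harc : ∀ᶠ s in 𝓝 (0 : ℝ), F (γ x0 + s • u) = c := by
    have ht : Tendsto (fun s : ℝ => x0 + s) (𝓝 0) (𝓝 x0) := by
      have : Tendsto (fun s : ℝ => x0 + s) (𝓝 0) (𝓝 (x0 + 0)) :=
        (continuous_const.add continuous_id).tendsto 0
      simpa using this
    filter_upwards [ht.eventually h] with s hs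
    have h2 := hline (γ x0) (γ (x0 + s)) h0.2.2 hs.2.2
    rw [map_sub, hs.2.1, h0.2.1] at h2
    have h3 : k + (x0 + s) - (k + x0) = s := by ring
    rw [h3] at h2
    have h4 : γ (x0 + s) = γ x0 + s • u := by
      rw [hu, smul_comm, ← h2, smul_smul, inv_mul_cancel₀ hlv, one_smul]
      abel
    rw [← h4]
    exact hs.1
  have hev : (fun s : ℝ => F (γ x0 + s • u)) =ᶠ[𝓝 0] fun _ => c := harc
  have hd1 : HasDerivAt (fun s : ℝ => F (γ x0 + s • u)) 0 0 :=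
    (hasDerivAt_const (0 : ℝ) c).congr_of_eventuallyEq hev
  have hd2 : HasDerivAt (fun s : ℝ => F (γ x0 + s • u)) (fderiv ℝ F (γ x0) u) 0 := by
    have hFd : HasFDerivAt F (fderiv ℝ F (γ x0)) (γ x0 + (0 : ℝ) • u) := by
      rw [zero_smul, add_zero]
      exact ((hF.smooth _ hΩ).differentiableAt (by simp)).hasFDerivAt
    have hg : HasDerivAt (fun s : ℝ => γ x0 + s • u) u 0 := by
      have := ((hasDerivAt_id (0 : ℝ)).smul_const u).const_add (γ x0)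
      simpa using this
    exact hFd.comp_hasDerivAt (0 : ℝ) hg
  refine hF.curved (γ x0) hΩ u hu0 (hd2.unique hd1) ?_
  rw [hev.iteratedDeriv_eq 2]
  simp [iteratedDeriv_const]

theorem t_UNIQ : S_UNIQ := by
  intro Ω F hF q hq Q Q' hQ hQe hQe'
  -- the arc
  obtain ⟨L, hL⟩ : ∃ L, L = fderiv ℝ F q := ⟨_, rfl⟩
  obtain ⟨a, ha⟩ : ∃ a, a = L (1, 0) := ⟨_, rfl⟩
  obtain ⟨b, hb⟩ : ∃ b, b = L (0, 1) := ⟨_, rfl⟩
  have hLp : ∀ p : ℝ × ℝ, L p = p.1 * a + p.2 * b := by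
    intro p
    have : p = p.1 • ((1, 0) : ℝ × ℝ) + p.2 • ((0, 1) : ℝ × ℝ) := by ext <;> simp
    conv_lhs => rw [this]
    rw [map_add, map_smul, map_smul, smul_eq_mul, smul_eq_mul, ha, hb]
  have hn : a ^ 2 + b ^ 2 ≠ 0 := by
    intro h0
    have ha0 : a = 0 := by nlinarith [sq_nonneg a, sq_nonneg b]
    have hb0 : b = 0 := by nlinarith [sq_nonneg a, sq_nonneg b]
    apply hF.regular q hq
    rw [← hL]
    ext <;> simp [← ha, ← hb, ha0, hb0]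
  let lam : ℝ × ℝ →L[ℝ] ℝ := b • ContinuousLinearMap.fst ℝ ℝ ℝ - a • ContinuousLinearMap.snd ℝ ℝ ℝ
  have hlam : ∀ p : ℝ × ℝ, lam p = b * p.1 - a * p.2 := fun p => rfl
  let inv : ℝ × ℝ →L[ℝ] ℝ × ℝ :=
    ((b / (a ^ 2 + b ^ 2)) • ContinuousLinearMap.fst ℝ ℝ ℝ +
      (a / (a ^ 2 + b ^ 2)) • ContinuousLinearMap.snd ℝ ℝ ℝ).prod
    ((-a / (a ^ 2 + b ^ 2)) • ContinuousLinearMap.fst ℝ ℝ ℝ +
      (b / (a ^ 2 + b ^ 2)) • ContinuousLinearMap.snd ℝ ℝ ℝ)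
  have hinv : ∀ p : ℝ × ℝ, inv p = (b / (a ^ 2 + b ^ 2) * p.1 + a / (a ^ 2 + b ^ 2) * p.2,
      -a / (a ^ 2 + b ^ 2) * p.1 + b / (a ^ 2 + b ^ 2) * p.2) := fun p => rfl
  let E : (ℝ × ℝ) ≃L[ℝ] (ℝ × ℝ) := ContinuousLinearEquiv.equivOfInverse (lam.prod L) inv
    (by
      intro p
      rw [hinv, ContinuousLinearMap.prod_apply, hlam, hLp]
      ext
      · simp only
        field_simp
        ring
      · simp only
        field_simp
        ring)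
    (by
      intro p
      rw [hinv, ContinuousLinearMap.prod_apply, hlam, hLp]
      ext
      · simp only
        field_simp
        ring
      · simp only
        field_simp
        ring)
  let Φ : ℝ × ℝ → ℝ × ℝ := fun p => (lam p, F p)
  have hΦ : HasStrictFDerivAt Φ (E : (ℝ × ℝ) →L[ℝ] (ℝ × ℝ)) q := by
    have h1 : HasStrictFDerivAt F L q := by
      rw [hL]
      exact (hF.smooth q hq).hasStrictFDerivAt (by simp)
    exact lam.hasStrictFDerivAt.prodMk h1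
  obtain ⟨H, hHdef⟩ : ∃ H, H = hΦ.toOpenPartialHomeomorph Φ := ⟨_, rfl⟩
  have hHc : ∀ p, H p = Φ p := by
    intro p
    rw [hHdef]
    rfl
  have hqs : q ∈ H.source := by
    rw [hHdef]
    exact hΦ.mem_toOpenPartialHomeomorph_source
  have hqt : Φ q ∈ H.target := by
    rw [← hHc]
    exact H.map_source hqs
  let γ : ℝ → ℝ × ℝ := fun x => H.symm (lam q + x, F q)
  have hγ0 : γ 0 = q := by
    change H.symm (lam q + 0, F q) = q
    rw [add_zero]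
    have : ((lam q, F q) : ℝ × ℝ) = H q := by rw [hHc]
    rw [this]
    exact H.left_inv hqs
  have hpath : Continuous (fun x : ℝ => ((lam q + x, F q) : ℝ × ℝ)) := by fun_prop
  have htar : ∀ᶠ x in 𝓝 (0 : ℝ), ((lam q + x, F q) : ℝ × ℝ) ∈ H.target := by
    have h1 : ((lam q + (0 : ℝ), F q) : ℝ × ℝ) ∈ H.target := by
      rw [add_zero]; exact hqt
    exact hpath.continuousAt.eventually (H.open_target.mem_nhds h1)
  have hcont : ∀ x, ((lam q + x, F q) : ℝ × ℝ) ∈ H.target → ContinuousAt γ x := by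
    intro x hx
    exact ContinuousAt.comp (f := fun x : ℝ => ((lam q + x, F q) : ℝ × ℝ)) (g := H.symm)
      (H.continuousAt_symm hx) hpath.continuousAt
  have hval : ∀ x, ((lam q + x, F q) : ℝ × ℝ) ∈ H.target →
      F (γ x) = F q ∧ lam (γ x) = lam q + x := by
    intro x hx
    have h1 := H.right_inv hx
    rw [hHc] at h1
    exact ⟨congrArg Prod.snd h1, congrArg Prod.fst h1⟩
  have hγc0 : ContinuousAt γ 0 := hcont 0 htar.self_of_nhds
  have hnear : ∀ᶠ x in 𝓝 (0 : ℝ), γ x ∈ Ω ∧ quad Q (γ x) = 0 ∧ quad Q' (γ x) = 0 := by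
    have h1 : ∀ᶠ x in 𝓝 (0 : ℝ), γ x ∈ Ω := by
      apply hγc0.eventually
      rw [hγ0]
      exact hF.isOpen.mem_nhds hq
    have h2 : ∀ᶠ x in 𝓝 (0 : ℝ), F (γ x) = F q → quad Q (γ x) = 0 := by
      apply hγc0.eventually (p := fun p => F p = F q → quad Q p = 0)
      rw [hγ0]
      exact hQe
    have h3 : ∀ᶠ x in 𝓝 (0 : ℝ), F (γ x) = F q → quad Q' (γ x) = 0 := by
      apply hγc0.eventually (p := fun p => F p = F q → quad Q' p = 0)
      rw [hγ0]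
      exact hQe'
    filter_upwards [h1, h2, h3, htar] with x k1 k2 k3 k4
    exact ⟨k1, k2 (hval x k4).1, k3 (hval x k4).1⟩
  obtain ⟨δ, hδ, hδ'⟩ := Metric.eventually_nhds_iff.1 (htar.and hnear)
  have hall : ∀ x ∈ Ioo (-δ) δ, ((lam q + x, F q) : ℝ × ℝ) ∈ H.target ∧ γ x ∈ Ω ∧
      quad Q (γ x) = 0 ∧ quad Q' (γ x) = 0 := by
    intro x hx
    apply hδ'
    rw [Real.dist_eq, sub_zero, abs_lt]
    exact hx
  have hsub : ∀ (P v : ℝ × ℝ), v ≠ 0 → ∀ α β : ℝ, α < β → Ioo α β ⊆ Ioo (-δ) δ →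
      ∃ α' β' : ℝ, α' < β' ∧ Ioo α' β' ⊆ Ioo α β ∧ ∀ x ∈ Ioo α' β', det2 v (γ x - P) ≠ 0 := by
    intro P v hv α β hαβ hI
    obtain ⟨x, hx, hx'⟩ : ∃ x ∈ Ioo α β, det2 v (γ x - P) ≠ 0 := by
      by_contra hcon
      push Not at hcon
      obtain ⟨x0, hx0⟩ : (Ioo α β).Nonempty := nonempty_Ioo.2 hαβ
      refine noline hF γ (lam : ℝ × ℝ →ₗ[ℝ] ℝ) (F q) (lam q) x0 P v hv (hall x0 (hI hx0)).2.1 ?_
      filter_upwards [Ioo_mem_nhds hx0.1 hx0.2] with x hx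
      have h1 := hval x (hall x (hI hx)).1
      exact ⟨h1.1, h1.2, hcon x hx⟩
    have hc : ContinuousAt (fun x => det2 v (γ x - P)) x := by
      have h1 := hcont x (hall x (hI hx)).1
      have h2 : Continuous (fun p : ℝ × ℝ => det2 v (p - P)) := by
        unfold det2
        fun_prop
      exact h2.continuousAt.comp h1
    have hev := (hc.eventually_ne hx').and (Ioo_mem_nhds hx.1 hx.2)
    obtain ⟨r, hr, hr'⟩ := Metric.eventually_nhds_iff.1 hev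
    have hd : ∀ y ∈ Ioo (x - r) (x + r), dist y x < r := by
      intro y hy
      rw [Real.dist_eq, abs_lt]
      constructor <;> linarith [hy.1, hy.2]
    exact ⟨x - r, x + r, by linarith, fun y hy => (hr' (hd y hy)).2, fun y hy => (hr' (hd y hy)).1⟩
  have hne : ∀ x ∈ Ioo (-δ) δ, ∀ y ∈ Ioo (-δ) δ, x ≠ y → γ y - γ x ≠ 0 := by
    intro x hx y hy hxy h0
    have h1 := (hval x (hall x hx).1).2
    have h2 := (hval y (hall y hy).1).2
    rw [sub_eq_zero.1 h0] at h2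
    apply hxy
    linarith
  have m0 : (-(δ / 2)) ∈ Ioo (-δ) δ := ⟨by linarith, by linarith⟩
  have m1 : (0 : ℝ) ∈ Ioo (-δ) δ := ⟨by linarith, by linarith⟩
  obtain ⟨α, β, hαβ, hI, hP⟩ := hsub (γ (-(δ / 2))) (γ 0 - γ (-(δ / 2)))
    (hne _ m0 _ m1 (by linarith)) (-δ) δ (by linarith) (Subset.refl _)
  have m2 : (2 * α + β) / 3 ∈ Ioo α β := ⟨by linarith, by linarith⟩
  have m3 : (α + 2 * β) / 3 ∈ Ioo α β := ⟨by linarith, by linarith⟩
  obtain ⟨α', β', hαβ', hI', hP'⟩ := hsub (γ ((2 * α + β) / 3))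
    (γ ((α + 2 * β) / 3) - γ ((2 * α + β) / 3)) (hne _ (hI m2) _ (hI m3) (by linarith)) α β hαβ hI
  have m4 : (α' + β') / 2 ∈ Ioo α' β' := ⟨by linarith, by linarith⟩
  exact five Q Q' hQ (γ (-(δ / 2))) (γ 0) (γ ((2 * α + β) / 3)) (γ ((α + 2 * β) / 3))
    (γ ((α' + β') / 2)) (hP _ m2) (hP _ m3) (hP _ (hI' m4)) (hP' _ m4)
    (hall _ m0).2.2 (hall _ m1).2.2 (hall _ (hI m2)).2.2 (hall _ (hI m3)).2.2
    (hall _ (hI (hI' m4))).2.2

end

end Pool.Agent.U55.PD
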